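import Pool.Agent.Lib_helper46.Cubic3.Main

/-!
# MP_1932ef_ag: a cubic surface over `ℂ(t)` whose models have `3`-torsion in the Brauer group

The surface is `w³ + t² x³ + t (2t³ + t + 2) (y² z + y z²) = 0` over `ℂ(t)` and the class is that
of the symbol algebra `(t, y/z)_ζ` of degree three over its function field `F`.

* It is unramified at every discrete valuation ring of `F` containing `ℂ`, so by purity it lies in
  `Br(X)` for every smooth proper model `X` of `S` over `ℂ`.
* It is not trivial: after a specialisation of the constants over the prime `2` the surface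
  becomes `w³ = t² D`, `D = -(x³ + y² + y)`, whose function field is `k(x, y, r)`, `t = D r³`, and
  the symbol `(D, y)` ramifies along `D = 0`.
* It is killed by three.
-/

open scoped TensorProduct

namespace Pool.Agent.Results.MP_1932ef_ag.ThreeTorsionBrauer

open Pool.Agent.Cubic3

/-- There is a smooth cubic surface `S` over `ℂ(t)` with a class of order three in the unramified
Brauer group of its function field over `ℂ`. -/
theorem result :
    ∃ G : MvPolynomial (Fin 4) (RatFunc ℂ), G.IsHomogeneous 3 ∧ IsNonsingular G ∧
      (chartIdeal G).IsPrime ∧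
      ∀ (F : Type) [Field F] [Algebra (MvPolynomial (Fin 3) (RatFunc ℂ) ⧸ chartIdeal G) F]
        [IsFractionRing (MvPolynomial (Fin 3) (RatFunc ℂ) ⧸ chartIdeal G) F],
        ∃ (A : Type) (_ : Ring A) (_ : Algebra F A),
          IsSimpleRing A ∧ Algebra.IsCentral F A ∧ FiniteDimensional F A ∧
          (∀ R : ValuationSubring F, IsDiscreteValuationRing R →
            (∀ c : ℂ, constMap G F c ∈ R) → UnramifiedAt F A R) ∧
          ¬ BrauerTrivial F A ∧ BrauerTrivial F ((A ⊗[F] A) ⊗[F] A) := by
  refine ⟨Phi, Phi_homog, Phi_nonsing, Phi_prime, ?_⟩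
  intro F _ _ _
  let _ : Algebra ℂ F := (constMap Phi F).toAlgebra
  obtain ⟨h, F1, F2⟩ := FF (F := F) (fun c => rfl) _ _ _ _ rfl rfl rfl rfl
  exact main_aux _ _ _ _ h F1 F2

end Pool.Agent.Results.MP_1932ef_ag.ThreeTorsionBrauer
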